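import Pool.Agent.H239.RangeBase

/-!
# MP_9bce2c_an: the main construction for exponents above 1
-/

namespace Pool.Agent.H239.RangeAboveOne

open Matrix Finset
open scoped ENNReal ComplexOrder
open Pool.Agent.Results.MP_9bce2c_an.SquareRootMean Pool.Agent.H239.RangeBase

variable {n : ℕ}

lemma dg_two (α β : ℝ) (G : Matrix (Fin 2) (Fin 2) ℂ) :
    dg !![(β : ℂ), -(α : ℂ); (α : ℂ), (β : ℂ)] G =
      ![β ^ 2 * (G 0 0).re + α * β * ((G 0 1).re + (G 1 0).re) + α ^ 2 * (G 1 1).re,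
        α ^ 2 * (G 0 0).re - α * β * ((G 0 1).re + (G 1 0).re) + β ^ 2 * (G 1 1).re] := by
  funext i
  fin_cases i
  · simp [dg, Matrix.mul_apply, Fin.sum_univ_two]; ring
  · simp [dg, Matrix.mul_apply, Fin.sum_univ_two]; ring

lemma matPow_isHermitian {A : Matrix (Fin n) (Fin n) ℂ} (p : ℝ) : (matPow A p).IsHermitian :=
  cfc_predicate _ A

lemma ent_d (x y z : ℝ) (M S : Matrix (Fin 2) (Fin 2) ℂ) (i : Fin 2) :
    ((x • M + y • S + z • (1 : Matrix (Fin 2) (Fin 2) ℂ)) i i).re =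
      x * (M i i).re + y * (S i i).re + z := by
  simp

lemma ent_o (x y z : ℝ) (M S : Matrix (Fin 2) (Fin 2) ℂ) :
    ((x • M + y • S + z • (1 : Matrix (Fin 2) (Fin 2) ℂ)) 0 1).re =
      x * (M 0 1).re + y * (S 0 1).re := by
  simp

lemma ent2_d (x z : ℝ) (M : Matrix (Fin 2) (Fin 2) ℂ) (i : Fin 2) :
    ((x • M + z • (1 : Matrix (Fin 2) (Fin 2) ℂ)) i i).re = x * (M i i).re + z := by
  simp

lemma ent2_o (x z : ℝ) (M : Matrix (Fin 2) (Fin 2) ℂ) :
    ((x • M + z • (1 : Matrix (Fin 2) (Fin 2) ℂ)) 0 1).re = x * (M 0 1).re := by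
  simp

lemma vec_add (a b x y : ℝ) : (![a, b] : Fin 2 → ℝ) + ![x, y] = ![x + a, y + b] := by
  funext i
  fin_cases i
  · simp [add_comm]
  · simp [add_comm]

/-- The case `p > 1`. -/
lemma partB (q : ℝ≥0∞) [Fact (1 ≤ q)] (α β h1 h2 φ1 φ2 : ℝ) (hα : 0 < α) (hβ : 0 < β)
    (hαβ : α ^ 2 + β ^ 2 = 1) (hκ : 0 < h2 * β ^ 2 - h1 * α ^ 2)
    (hpos : h1 * β ^ 2 - h2 * α ^ 2 +
      2 * ((h1 + h2) * (α * β)) ^ 2 / (h2 * β ^ 2 - h1 * α ^ 2) < 1)
    (hφ1 : 0 ≤ φ1) (hφ2 : 0 ≤ φ2) (hγ : 0 < φ1 * α ^ 2 - φ2 * β ^ 2)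
    (hD : ∀ ω : ℝ, 0 < ω → ∃ ε0 : ℝ, 0 < ε0 ∧ ∀ a b : ℝ, ω ≤ φ1 * a - φ2 * b →
      lq q ![h1, -h2] + ε0 < lq q ![h1 + a, -h2 + b])
    (p : ℝ) (hp : 1 < p) : ¬ Monotonic p q := by
  intro hmon
  set r : ℝ := 1 / p with hr
  have hr0 : 0 < r := by positivity
  have hr1 : r < 1 := by rw [hr, div_lt_one (by linarith)]; exact hp
  set κ := h2 * β ^ 2 - h1 * α ^ 2 with hκd
  set b0 := (h1 + h2) * (α * β) with hb0
  set V : Matrix (Fin 2) (Fin 2) ℂ := !![(β : ℂ), -(α : ℂ); (α : ℂ), (β : ℂ)] with hV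
  have hαβ' : (α : ℂ) ^ 2 + (β : ℂ) ^ 2 = 1 := by exact_mod_cast hαβ
  have hVV : Vᴴ * V = 1 := by
    ext i j
    fin_cases i <;> fin_cases j <;>
      simp [hV, Matrix.mul_apply, Fin.sum_univ_two] <;>
      first
        | linear_combination hαβ'
        | ring
  set d : Fin 2 → ℝ := ![h1, -h2] with hd
  set H : Matrix (Fin 2) (Fin 2) ℂ := V * diagonal (fun i => ((d i : ℝ) : ℂ)) * Vᴴ with hH
  have hHe : H = !![((h1 * β ^ 2 - h2 * α ^ 2 : ℝ) : ℂ), ((b0 : ℝ) : ℂ);
      ((b0 : ℝ) : ℂ), ((-κ : ℝ) : ℂ)] := by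
    rw [hH]
    ext i j
    rw [Matrix.mul_apply, Fin.sum_univ_two, Matrix.mul_diagonal, Matrix.mul_diagonal]
    fin_cases i <;> fin_cases j <;> simp [hV, hd, hκd, hb0] <;> ring
  set X0 : Matrix (Fin 2) (Fin 2) ℂ := diagonal (fun i => (((![1, 0] : Fin 2 → ℝ) i : ℝ) : ℂ))
    with hX0
  set Y : Matrix (Fin 2) (Fin 2) ℂ := X0 - H with hYd
  -- positivity of `Y`
  have hYpos : Y.PosDef := by
    set w : Fin 2 → ℂ := ![((-b0 : ℝ) : ℂ), ((κ / 2 : ℝ) : ℂ)] with hw
    have e : Y = ((2 / κ : ℝ)) • Matrix.vecMulVec w (star w) +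
        diagonal (fun i => (((![1 - (h1 * β ^ 2 - h2 * α ^ 2) - 2 * b0 ^ 2 / κ, κ / 2] :
          Fin 2 → ℝ) i : ℝ) : ℂ)) := by
      rw [hYd, hHe, hX0]
      have hκ0 : (κ : ℂ) ≠ 0 := by exact_mod_cast hκ.ne'
      ext i j
      rw [Matrix.sub_apply, Matrix.add_apply, Matrix.smul_apply, Matrix.diagonal_apply,
        Matrix.diagonal_apply, Matrix.vecMulVec_apply]
      fin_cases i <;> fin_cases j <;> simp [hw] <;> field_simp <;> ring
    rw [e]
    refine Matrix.PosDef.posSemidef_add ?_ ?_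
    · exact (Matrix.posSemidef_vecMulVec_self_star w).smul (by positivity)
    · rw [posDef_diagonal_iff]
      intro i
      fin_cases i
      · have : 0 < 1 - (h1 * β ^ 2 - h2 * α ^ 2) - 2 * b0 ^ 2 / κ := by linarith
        simpa using (by exact_mod_cast this :
          (0 : ℂ) < ((1 - (h1 * β ^ 2 - h2 * α ^ 2) - 2 * b0 ^ 2 / κ : ℝ) : ℂ))
      · have : 0 < κ / 2 := by positivity
        simpa using (by exact_mod_cast this : (0 : ℂ) < ((κ / 2 : ℝ) : ℂ))
  obtain ⟨c, C, hc, hC, hYc, hYC⟩ := pow_bounds hYpos p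
  set γ := φ1 * α ^ 2 - φ2 * β ^ 2 with hγd
  set K := (φ1 + φ2) * (2 + 4 * C) with hK
  set D := 1 + 4 * K ^ 2 / γ ^ 2 with hDd
  have hD1 : 1 ≤ D := by
    have : 0 ≤ 4 * K ^ 2 / γ ^ 2 := by positivity
    linarith
  obtain ⟨η, hη0, hη1, hηD⟩ := exists_eta D c r (by linarith) hc hr1
  set w0 := (η * c) ^ r with hw0
  have hw0p : 0 < w0 := Real.rpow_pos_of_pos (by positivity) r
  obtain ⟨ε0, hε0, hgain⟩ := hD (γ / 2 * w0) (by positivity)
  set e := lq q ![0, 1] with he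
  have he0 : 0 ≤ e := lq_nonneg q _
  set ε := min 1 (ε0 / (1 + e)) with hε
  have hεp : 0 < ε := lt_min one_pos (by positivity)
  have hε1 : ε ≤ 1 := min_le_left _ _
  have hεe : ε * e ≤ ε0 := by
    have h3 : ε ≤ ε0 / (1 + e) := min_le_right _ _
    rw [le_div_iff₀ (by positivity)] at h3
    nlinarith
  set dx : Fin 2 → ℝ := ![1, ε] with hdx
  set X : Matrix (Fin 2) (Fin 2) ℂ := diagonal (fun i => ((dx i : ℝ) : ℂ)) with hX
  have hXpos : X.PosDef := by
    rw [hX, posDef_diagonal_iff]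
    intro i
    fin_cases i
    · simp [hdx]
    · simpa [hdx] using hεp
  have hXp : matPow X p = diagonal (fun i => ((dx i ^ p : ℝ) : ℂ)) := matPow_diag dx p
  -- the mean at `t = 1`
  have hM1 : powerMean p 1 X Y = X := by
    unfold powerMean
    rw [one_smul, sub_self, zero_smul, add_zero, hXp, matPow_diag, hX]
    congr 1
    funext i
    have hdi : 0 ≤ dx i := by
      fin_cases i
      · simp [hdx]
      · simpa [hdx] using hεp.le
    rw [← Real.rpow_mul hdi, mul_one_div_cancel (by linarith), Real.rpow_one]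
  set Yp := matPow Y p with hYp
  have hYpH : Yp.IsHermitian := matPow_isHermitian p
  set S : Matrix (Fin 2) (Fin 2) ℂ := (1 - η) • matPow X p + η • Yp with hS
  set M := matPow S r with hM
  have hMη : powerMean p (1 - η) X Y = M := by
    unfold powerMean
    rw [hM, hS, hYp, hr]
    congr 3
    ring
  -- bounds for `S`
  have hXp0 : (matPow X p).PosSemidef := by
    rw [hXp, posSemidef_diagonal_iff]
    intro i
    have hdi : 0 ≤ dx i := by
      fin_cases i
      · simp [hdx]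
      · simpa [hdx] using hεp.le
    exact_mod_cast Real.rpow_nonneg hdi p
  have hXp1 : ((1 : Matrix (Fin 2) (Fin 2) ℂ) - matPow X p).PosSemidef := by
    rw [hXp, ← diagonal_one, diagonal_sub, posSemidef_diagonal_iff]
    intro i
    have hdi : dx i ^ p ≤ 1 := by
      fin_cases i
      · simp [hdx]
      · simpa [hdx] using Real.rpow_le_one hεp.le hε1 (by linarith)
    have : 0 ≤ 1 - dx i ^ p := by linarith
    exact_mod_cast this
  have hSH : S.IsHermitian := by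
    rw [hS]
    exact ((matPow_isHermitian p).smul (IsSelfAdjoint.all _)).add
      (hYpH.smul (IsSelfAdjoint.all _))
  obtain ⟨W, hW, hSW⟩ := spec hSH
  set s := hSH.eigenvalues with hs
  have hSc : ((1 : ℝ) • S + (-(η * c)) • (1 : Matrix (Fin 2) (Fin 2) ℂ)).PosSemidef := by
    have e1 : (1 : ℝ) • S + (-(η * c)) • (1 : Matrix (Fin 2) (Fin 2) ℂ) =
        (1 - η) • matPow X p + η • (Yp + (-c) • (1 : Matrix (Fin 2) (Fin 2) ℂ)) := by
      rw [hS]
      module
    rw [e1]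
    exact (hXp0.smul (by linarith)).add (hYc.smul hη0.le)
  have hSC : ((-1 : ℝ) • S + (1 + η * C) • (1 : Matrix (Fin 2) (Fin 2) ℂ)).PosSemidef := by
    have e1 : (-1 : ℝ) • S + (1 + η * C) • (1 : Matrix (Fin 2) (Fin 2) ℂ) =
        (1 - η) • ((1 : Matrix (Fin 2) (Fin 2) ℂ) - matPow X p) +
          η • ((-1 : ℝ) • Yp + C • (1 : Matrix (Fin 2) (Fin 2) ℂ)) +
          η • (1 : Matrix (Fin 2) (Fin 2) ℂ) := by
      rw [hS]
      module
    rw [e1]
    exact ((hXp1.smul (by linarith)).add (hYC.smul hη0.le)).add (PosSemidef.one.smul hη0.le)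
  have hs0 : ∀ i, η * c ≤ s i := fun i => by
    have := le_eig hW hSW 1 (-(η * c)) hSc i
    linarith
  have hs1 : ∀ i, s i ≤ 1 + η * C := fun i => by
    have := le_eig hW hSW (-1) (1 + η * C) hSC i
    linarith
  have hsp : ∀ i, 0 < s i := fun i => lt_of_lt_of_le (by positivity) (hs0 i)
  have hMW : M = W * diagonal (fun i => ((s i ^ r : ℝ) : ℂ)) * Wᴴ := cfc_conj hW hSW _
  have hMH : M.IsHermitian := matPow_isHermitian r
  -- entries
  have g1 := fc_psd hW hSW hMW 1 0 (-w0) (fun i => by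
    have : w0 ≤ s i ^ r := Real.rpow_le_rpow (by positivity) (hs0 i) hr0.le
    linarith)
  have g2 := fc_psd hW hSW hMW (-1) r (1 - r) (fun i => by
    have := scal1 hr0 hr1 (hsp i)
    linarith)
  have g3 := fc_psd hW hSW hMW 1 (-1) (η * C) (fun i => by
    have := scal2 hr0 hr1 (hsp i) (hs1 i) (by positivity)
    linarith)
  have g1' := (psd_entries g1).2.1
  have g2' := (psd_entries g2).1
  obtain ⟨g3a, g3b, g3c⟩ := psd_entries g3
  obtain ⟨y1, y2, y3⟩ := psd_entries hYc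
  obtain ⟨y4, y5, y6⟩ := psd_entries hYC
  have eS00 : (S 0 0).re = (1 - η) + η * (Yp 0 0).re := by
    rw [hS, hXp]
    simp [hdx]
  have eS01 : (S 0 1).re = η * (Yp 0 1).re := by
    rw [hS, hXp]
    simp [hdx]
  rw [ent_d] at g1' g2' g3a g3b
  rw [ent_d, ent_d, ent_o] at g3c
  have hYc' : Yp + (-c) • (1 : Matrix (Fin 2) (Fin 2) ℂ) =
      (1 : ℝ) • Yp + (-c) • (1 : Matrix (Fin 2) (Fin 2) ℂ) := by rw [one_smul]
  rw [hYc', ent2_d] at y1 y2
  rw [hYc', ent2_d, ent2_d, ent2_o] at y3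
  rw [ent2_d] at y4 y5
  set w := (M 1 1).re with hwd
  set m0 := (M 0 0).re - 1 with hm0d
  set m1 := (M 0 1).re with hm1d
  set y00 := (Yp 0 0).re with hy00
  set y11 := (Yp 1 1).re with hy11
  set y01 := (Yp 0 1).re with hy01
  have hw : w0 ≤ w := by linarith
  have hS11 : 0 ≤ (S 1 1).re := by
    have hSps : ((1 : ℝ) • S + (-(η * c)) • (1 : Matrix (Fin 2) (Fin 2) ℂ)).PosSemidef := hSc
    have := (psd_entries hSps).2.1
    rw [ent2_d] at this
    have h5 : 0 < η * c := by positivity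
    linarith
  have hy00' : y00 ≤ C := by linarith
  have hy11' : y11 ≤ C := by linarith
  have hy00c : 0 < y00 := by linarith
  have hy11c : 0 < y11 := by linarith
  have hy : |y01| ≤ C := by
    refine abs_le_of_sq_le_sq ?_ hC.le
    have h5 : y01 ^ 2 ≤ (y00 - c) * (y11 - c) := by linarith
    have h6 : (y00 - c) * (y11 - c) ≤ C * C := by
      refine mul_le_mul ?_ ?_ ?_ hC.le <;> linarith
    nlinarith
  have hup : m0 ≤ η * C := by
    have h5 : r * (S 0 0).re ≤ r * (1 + η * C) := by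
      rw [eS00]
      have : η * y00 ≤ η * C := mul_le_mul_of_nonneg_left hy00' hη0.le
      refine mul_le_mul_of_nonneg_left ?_ hr0.le
      linarith
    have h6 : r * (η * C) ≤ η * C := mul_le_of_le_one_left (by positivity) hr1.le
    have h7 : r * (1 + η * C) = r + r * (η * C) := by ring
    linarith
  have hlo : -(η * (1 + C)) ≤ m0 := by
    have h5 : 0 ≤ η * y00 := by positivity
    have h6 : η * (1 + C) = η + η * C := by ring
    linarith
  have hm0 : |m0| ≤ (1 + C) * η := by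
    rw [abs_le]
    have h6 : (1 + C) * η = η + η * C := by ring
    have h7 : η * (1 + C) = η + η * C := by ring
    constructor <;> linarith
  have hm1 : (m1 - η * y01) ^ 2 ≤ η * (1 + 2 * C) * (w + η * C) := by
    have h5 : (m1 - η * y01) ^ 2 ≤
        (1 * (M 0 0).re + -1 * (S 0 0).re + η * C) * (1 * w + -1 * (S 1 1).re + η * C) := by
      rw [eS01] at g3c
      have : 1 * m1 + -1 * (η * y01) = m1 - η * y01 := by ring
      rw [this] at g3c
      exact g3c
    refine h5.trans (mul_le_mul ?_ ?_ g3b (by positivity))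
    · have h8 : 0 ≤ η * y00 := by positivity
      have h9 : η * (1 + 2 * C) = η + η * C + η * C := by ring
      linarith
    · linarith
  have hη1w : η ≤ w0 := by
    have : 1 * η ≤ D * η := mul_le_mul_of_nonneg_right hD1 hη0.le
    linarith
  have hη2 : 4 * K ^ 2 * η ≤ γ ^ 2 * w0 := by
    have h5 : 4 * K ^ 2 / γ ^ 2 * η ≤ w0 := by
      have : D * η = η + 4 * K ^ 2 / γ ^ 2 * η := by rw [hDd]; ring
      linarith
    have h6 : γ ^ 2 * (4 * K ^ 2 / γ ^ 2 * η) ≤ γ ^ 2 * w0 :=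
      mul_le_mul_of_nonneg_left h5 (sq_nonneg _)
    have h7 : γ ^ 2 * (4 * K ^ 2 / γ ^ 2 * η) = 4 * K ^ 2 * η := by
      field_simp
    linarith
  have hfin := arith α β φ1 φ2 C η w w0 m0 m1 y01 hα hβ hαβ hφ1 hφ2 hγ hC hη0 hw0p hw hη1w hη2
    hm0 hy hm1
  set a := β ^ 2 * m0 + 2 * (α * β) * m1 + α ^ 2 * w with had
  set b := α ^ 2 * m0 - 2 * (α * β) * m1 + β ^ 2 * w with hbd
  have hg := hgain a b hfin
  -- the lower bound at `t = 1 - η`
  have hHH : H.IsHermitian := by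
    rw [hH, IsHermitian, conjTranspose_mul, conjTranspose_mul, conjTranspose_conjTranspose,
      diagonal_conjTranspose, Matrix.mul_assoc]
    congr 3
    funext i
    simp
  have hYH : Y.IsHermitian := hYpos.1
  have hdgH : dg V H = d := dg_diag hVV hH
  have hdgM : dg V (M - X0) = ![a, b] := by
    rw [hV, dg_two]
    have h10 : (M 1 0).re = m1 := herm_re hMH
    have hx : ((M - X0) 0 0).re = m0 := by simp [hX0, hm0d]
    have hx1 : ((M - X0) 1 1).re = w := by simp [hX0, hwd]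
    have hx2 : ((M - X0) 0 1).re = m1 := by simp [hX0, hm1d]
    have hx3 : ((M - X0) 1 0).re = m1 := by simp [hX0, h10]
    rw [hx, hx1, hx2, hx3, had, hbd]
    congr 1
    · ring
    · congr 1
      ring
  have hlow : lq q ![h1 + a, -h2 + b] ≤ schatten q (M - Y) := by
    have h5 := schatten_ge q hVV (hMH.sub hYH)
    have h6 : dg V (M - Y) = ![h1 + a, -h2 + b] := by
      have h7 : M - Y = (M - X0) + H := by rw [hYd]; abel
      rw [h7, dg_add, hdgH, hdgM, hd, vec_add]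
    rwa [h6] at h5
  -- the upper bound at `t = 1`
  have hupp : schatten q (X - Y) ≤ lq q ![h1, -h2] + ε0 := by
    have hXY : (X - Y).IsHermitian := hXpos.1.sub hYH
    obtain ⟨W', hW', hXYW⟩ := spec hXY
    rw [schatten_eq q hXY, ← dg_diag hW' hXYW]
    set E : Matrix (Fin 2) (Fin 2) ℂ := diagonal (fun i => (((![0, 1] : Fin 2 → ℝ) i : ℝ) : ℂ))
      with hE
    have h7 : X - Y = H + ε • E := by
      rw [hYd, hX, hX0, hE, hdx]
      have : diagonal (fun i => (((![1, ε] : Fin 2 → ℝ) i : ℝ) : ℂ)) =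
          diagonal (fun i => (((![1, 0] : Fin 2 → ℝ) i : ℝ) : ℂ)) +
          ε • diagonal (fun i => (((![0, 1] : Fin 2 → ℝ) i : ℝ) : ℂ)) := by
        ext i j
        fin_cases i <;> fin_cases j <;> simp
      rw [this]
      abel
    rw [h7, dg_add, dg_smul]
    refine (lq_add q _ _).trans ?_
    rw [lq_smul, abs_of_pos hεp]
    have h8 : lq q (dg W' H) ≤ lq q ![h1, -h2] := lq_dg_le q W' V H d hW' hVV hH
    have h9 : lq q (dg W' E) ≤ e := lq_dg_le q W' 1 E ![0, 1] hW' (by simp) (by simp [hE])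
    have h10 : ε * lq q (dg W' E) ≤ ε * e := mul_le_mul_of_nonneg_left h9 hεp.le
    linarith
  have hcmp := hmon 2 X Y hXpos hYpos (a := 1 - η) (b := 1) ⟨by linarith, by linarith⟩
    ⟨zero_le_one, le_refl 1⟩ (by linarith)
  simp only [hM1, hMη] at hcmp
  linarith

end Pool.Agent.H239.RangeAboveOne
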