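import Pool.Agent.Results.MP_9bce2c_an.SquareRootMean

/-!
# Matrix lemmas for MP_9bce2c_an (ranges of exponents)
-/

namespace Pool.Agent.H239.RangeBase

open Matrix Finset
open scoped ENNReal ComplexOrder
open Pool.Agent.Results.MP_9bce2c_an.SquareRootMean

variable {n : ℕ}

/-- Functional calculus of an explicitly diagonalised matrix. -/
lemma cfc_conj {U A : Matrix (Fin n) (Fin n) ℂ} {d : Fin n → ℝ} (hU : Uᴴ * U = 1)
    (hA : A = U * diagonal (fun i => (d i : ℂ)) * Uᴴ) (f : ℝ → ℝ) :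
    cfc f A = U * diagonal (fun i => ((f (d i) : ℝ) : ℂ)) * Uᴴ := by
  have hU' : U * Uᴴ = 1 := mul_eq_one_comm.mp hU
  have hH : A.IsHermitian := by
    rw [hA, IsHermitian, conjTranspose_mul, conjTranspose_mul, conjTranspose_conjTranspose,
      diagonal_conjTranspose, Matrix.mul_assoc]
    congr 3
    funext i
    simp
  have h1 := hH.cfc_eq f
  rw [IsHermitian.cfc, Unitary.conjStarAlgAut_apply] at h1
  have h2 := hH.spectral_theorem
  rw [Unitary.conjStarAlgAut_apply] at h2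
  set V : Matrix (Fin n) (Fin n) ℂ := (hH.eigenvectorUnitary : Matrix (Fin n) (Fin n) ℂ) with hV
  have hVV : Vᴴ * V = 1 := (Unitary.mem_iff.mp hH.eigenvectorUnitary.2).1
  have hVV' : V * Vᴴ = 1 := mul_eq_one_comm.mp hVV
  set l := hH.eigenvalues with hl
  have h1' : cfc f A = V * diagonal (fun i => ((f (l i) : ℝ) : ℂ)) * Vᴴ := h1
  have h2' : A = V * diagonal (fun i => ((l i : ℝ) : ℂ)) * Vᴴ := h2
  have hW : diagonal (fun i => ((l i : ℝ) : ℂ)) * (Vᴴ * U) =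
      (Vᴴ * U) * diagonal (fun i => ((d i : ℝ) : ℂ)) := by
    have e1 : Vᴴ * A * U = diagonal (fun i => ((l i : ℝ) : ℂ)) * (Vᴴ * U) := by
      conv_lhs => rw [h2']
      calc Vᴴ * (V * diagonal (fun i => ((l i : ℝ) : ℂ)) * Vᴴ) * U
          = (Vᴴ * V) * diagonal (fun i => ((l i : ℝ) : ℂ)) * (Vᴴ * U) := by
            simp only [Matrix.mul_assoc]
        _ = _ := by rw [hVV, Matrix.one_mul]
    have e2 : Vᴴ * A * U = (Vᴴ * U) * diagonal (fun i => ((d i : ℝ) : ℂ)) := by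
      conv_lhs => rw [hA]
      calc Vᴴ * (U * diagonal (fun i => ((d i : ℝ) : ℂ)) * Uᴴ) * U
          = Vᴴ * U * diagonal (fun i => ((d i : ℝ) : ℂ)) * (Uᴴ * U) := by
            simp only [Matrix.mul_assoc]
        _ = _ := by rw [hU, Matrix.mul_one]
    rw [← e1, e2]
  have hWf : diagonal (fun i => ((f (l i) : ℝ) : ℂ)) * (Vᴴ * U) =
      (Vᴴ * U) * diagonal (fun i => ((f (d i) : ℝ) : ℂ)) := by
    ext i j
    have := congrFun (congrFun hW i) j
    rw [Matrix.diagonal_mul, Matrix.mul_diagonal] at this ⊢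
    by_cases h0 : (Vᴴ * U) i j = 0
    · rw [h0]; simp
    · have h3 : ((l i : ℝ) : ℂ) = ((d j : ℝ) : ℂ) := by
        rw [mul_comm] at this
        exact mul_left_cancel₀ h0 this
      have h4 : l i = d j := by exact_mod_cast h3
      rw [h4, mul_comm]
  rw [h1']
  calc V * diagonal (fun i => ((f (l i) : ℝ) : ℂ)) * Vᴴ
      = V * diagonal (fun i => ((f (l i) : ℝ) : ℂ)) * Vᴴ * (U * Uᴴ) := by
        rw [hU', Matrix.mul_one]
    _ = V * (diagonal (fun i => ((f (l i) : ℝ) : ℂ)) * (Vᴴ * U)) * Uᴴ := by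
        simp only [Matrix.mul_assoc]
    _ = (V * Vᴴ) * U * diagonal (fun i => ((f (d i) : ℝ) : ℂ)) * Uᴴ := by
        rw [hWf]; simp only [Matrix.mul_assoc]
    _ = _ := by rw [hVV', Matrix.one_mul]

/-- Positivity of a combination of commuting matrices. -/
lemma fc_psd {W S M : Matrix (Fin n) (Fin n) ℂ} {s m : Fin n → ℝ} (hW : Wᴴ * W = 1)
    (hS : S = W * diagonal (fun i => (s i : ℂ)) * Wᴴ)
    (hM : M = W * diagonal (fun i => (m i : ℂ)) * Wᴴ) (x y z : ℝ)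
    (h : ∀ i, 0 ≤ x * m i + y * s i + z) :
    (x • M + y • S + z • (1 : Matrix (Fin n) (Fin n) ℂ)).PosSemidef := by
  have hW' : W * Wᴴ = 1 := mul_eq_one_comm.mp hW
  have e : x • M + y • S + z • (1 : Matrix (Fin n) (Fin n) ℂ) =
      W * diagonal (fun i => ((x * m i + y * s i + z : ℝ) : ℂ)) * Wᴴ := by
    have e0 : diagonal (fun i => ((x * m i + y * s i + z : ℝ) : ℂ)) =
        x • diagonal (fun i => (m i : ℂ)) + y • diagonal (fun i => (s i : ℂ)) +
          z • (1 : Matrix (Fin n) (Fin n) ℂ) := by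
      ext i j
      by_cases hij : i = j
      · subst hij
        simp
      · simp [hij]
    rw [e0]
    simp only [Matrix.mul_add, Matrix.add_mul, Matrix.mul_smul, Matrix.smul_mul, Matrix.mul_one]
    rw [← hM, ← hS, hW']
  rw [e]
  refine PosSemidef.mul_mul_conjTranspose_same ?_ _
  rw [posSemidef_diagonal_iff]
  intro i
  exact_mod_cast h i

/-- Eigenvalues of a matrix that is at least `c`. -/
lemma le_eig {W S : Matrix (Fin n) (Fin n) ℂ} {s : Fin n → ℝ} (hW : Wᴴ * W = 1)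
    (hS : S = W * diagonal (fun i => (s i : ℂ)) * Wᴴ) (x c : ℝ)
    (h : (x • S + c • (1 : Matrix (Fin n) (Fin n) ℂ)).PosSemidef) (i : Fin n) :
    0 ≤ x * s i + c := by
  have h1 := h.conjTranspose_mul_mul_same W
  have h2 : Wᴴ * (x • S + c • (1 : Matrix (Fin n) (Fin n) ℂ)) * W =
      diagonal (fun i => ((x * s i + c : ℝ) : ℂ)) := by
    rw [Matrix.mul_add, Matrix.add_mul]
    have e1 : Wᴴ * (x • S) * W = x • diagonal (fun i => (s i : ℂ)) := by
      rw [Matrix.mul_smul, Matrix.smul_mul]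
      congr 1
      conv_lhs => rw [hS]
      calc Wᴴ * (W * diagonal (fun i => (s i : ℂ)) * Wᴴ) * W
          = (Wᴴ * W) * diagonal (fun i => (s i : ℂ)) * (Wᴴ * W) := by
            simp only [Matrix.mul_assoc]
        _ = _ := by rw [hW, Matrix.one_mul, Matrix.mul_one]
    have e2 : Wᴴ * (c • (1 : Matrix (Fin n) (Fin n) ℂ)) * W = c • 1 := by
      rw [Matrix.mul_smul, Matrix.smul_mul, Matrix.mul_one, hW]
    rw [e1, e2]
    ext i j
    by_cases hij : i = j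
    · subst hij
      simp
    · simp [hij]
  rw [h2, posSemidef_diagonal_iff] at h1
  have := h1 i
  exact_mod_cast this

/-! ### Two by two matrices -/

lemma psd_entries {G : Matrix (Fin 2) (Fin 2) ℂ} (h : G.PosSemidef) :
    0 ≤ (G 0 0).re ∧ 0 ≤ (G 1 1).re ∧ (G 0 1).re ^ 2 ≤ (G 0 0).re * (G 1 1).re := by
  have h0 := Complex.le_def.mp (h.diag_nonneg (i := 0))
  have h1 := Complex.le_def.mp (h.diag_nonneg (i := 1))
  have hd := Complex.le_def.mp h.det_nonneg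
  rw [det_fin_two] at hd
  have h10 : G 1 0 = star (G 0 1) := (h.1.apply 1 0).symm
  have e1 := hd.1
  rw [h10, Complex.star_def, Complex.mul_conj] at e1
  simp only [Complex.zero_re, Complex.sub_re, Complex.mul_re, Complex.ofReal_re] at e1
  have e2 : (G 0 0).im = 0 := h0.2.symm
  rw [e2, zero_mul, sub_zero, Complex.normSq_apply] at e1
  refine ⟨h0.1, h1.1, ?_⟩
  nlinarith [mul_self_nonneg (G 0 1).im]

lemma herm_re {G : Matrix (Fin 2) (Fin 2) ℂ} (h : G.IsHermitian) :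
    (G 1 0).re = (G 0 1).re := by
  have h10 : G 1 0 = star (G 0 1) := (h.apply 1 0).symm
  rw [h10]
  simp

lemma pow_bounds {Y : Matrix (Fin 2) (Fin 2) ℂ} (hY : Y.PosDef) (p : ℝ) :
    ∃ c C : ℝ, 0 < c ∧ 0 < C ∧
      (matPow Y p + (-c) • (1 : Matrix (Fin 2) (Fin 2) ℂ)).PosSemidef ∧
      ((-1 : ℝ) • matPow Y p + C • (1 : Matrix (Fin 2) (Fin 2) ℂ)).PosSemidef := by
  obtain ⟨W, hW, hYW⟩ := spec hY.1
  have hm : matPow Y p = W * diagonal (fun i => ((hY.1.eigenvalues i ^ p : ℝ) : ℂ)) * Wᴴ :=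
    cfc_conj hW hYW _
  have hp0 : ∀ i, 0 < hY.1.eigenvalues i ^ p := fun i =>
    Real.rpow_pos_of_pos (hY.eigenvalues_pos i) p
  refine ⟨min (hY.1.eigenvalues 0 ^ p) (hY.1.eigenvalues 1 ^ p),
    max (hY.1.eigenvalues 0 ^ p) (hY.1.eigenvalues 1 ^ p), lt_min (hp0 0) (hp0 1),
    lt_max_of_lt_left (hp0 0), ?_, ?_⟩
  · have := fc_psd hW hYW hm 1 0
      (-min (hY.1.eigenvalues 0 ^ p) (hY.1.eigenvalues 1 ^ p)) (fun i => by
        fin_cases i
        · have := min_le_left (hY.1.eigenvalues 0 ^ p) (hY.1.eigenvalues 1 ^ p)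
          simp only [Fin.zero_eta, Fin.isValue]
          linarith
        · have := min_le_right (hY.1.eigenvalues 0 ^ p) (hY.1.eigenvalues 1 ^ p)
          simp only [Fin.mk_one, Fin.isValue]
          linarith)
    simpa only [one_smul, zero_smul, add_zero] using this
  · have := fc_psd hW hYW hm (-1) 0
      (max (hY.1.eigenvalues 0 ^ p) (hY.1.eigenvalues 1 ^ p)) (fun i => by
        fin_cases i
        · have := le_max_left (hY.1.eigenvalues 0 ^ p) (hY.1.eigenvalues 1 ^ p)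
          simp only [Fin.zero_eta, Fin.isValue]
          linarith
        · have := le_max_right (hY.1.eigenvalues 0 ^ p) (hY.1.eigenvalues 1 ^ p)
          simp only [Fin.mk_one, Fin.isValue]
          linarith)
    simpa only [zero_smul, add_zero] using this

lemma exists_eta (D c r : ℝ) (hD : 0 < D) (hc : 0 < c) (hr1 : r < 1) :
    ∃ η : ℝ, 0 < η ∧ η < 1 ∧ D * η ≤ (η * c) ^ r := by
  have h1 : 0 < c ^ r / D := by positivity
  have h2 : 0 < (c ^ r / D) ^ (1 / (1 - r)) := Real.rpow_pos_of_pos h1 _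
  refine ⟨min (1 / 2) ((c ^ r / D) ^ (1 / (1 - r))), lt_min (by norm_num) h2,
    lt_of_le_of_lt (min_le_left _ _) (by norm_num), ?_⟩
  set η := min (1 / 2) ((c ^ r / D) ^ (1 / (1 - r))) with hη
  have hη0 : 0 < η := lt_min (by norm_num) h2
  have h3 : η ^ (1 - r) ≤ c ^ r / D := by
    calc η ^ (1 - r) ≤ ((c ^ r / D) ^ (1 / (1 - r))) ^ (1 - r) :=
          Real.rpow_le_rpow hη0.le (min_le_right _ _) (by linarith)
      _ = c ^ r / D := by
          rw [← Real.rpow_mul h1.le, one_div_mul_cancel (by linarith), Real.rpow_one]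
  have h4 : η = η ^ (1 - r) * η ^ r := by
    rw [← Real.rpow_add hη0]
    norm_num
  have h5 : 0 < η ^ r := Real.rpow_pos_of_pos hη0 r
  rw [Real.mul_rpow hη0.le hc.le]
  calc D * η = D * η ^ (1 - r) * η ^ r := by rw [mul_assoc, ← h4]
    _ ≤ D * (c ^ r / D) * η ^ r := by gcongr
    _ = η ^ r * c ^ r := by field_simp

lemma schatten_ge (q : ℝ≥0∞) [Fact (1 ≤ q)] {V G : Matrix (Fin n) (Fin n) ℂ}
    (hV : Vᴴ * V = 1) (hG : G.IsHermitian) : lq q (dg V G) ≤ schatten q G := by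
  obtain ⟨W, hW, hGW⟩ := spec hG
  rw [schatten_eq q hG]
  exact lq_dg_le q V W G _ hV hW hGW

lemma schatten_le (q : ℝ≥0∞) [Fact (1 ≤ q)] {U G : Matrix (Fin n) (Fin n) ℂ} {d : Fin n → ℝ}
    (hU : Uᴴ * U = 1) (hGU : G = U * diagonal (fun i => (d i : ℂ)) * Uᴴ)
    (hG : G.IsHermitian) : schatten q G ≤ lq q d := by
  obtain ⟨W, hW, hGW⟩ := spec hG
  rw [schatten_eq q hG, ← dg_diag hW hGW]
  exact lq_dg_le q W U G _ hW hU hGU

/-- Real arithmetic at the end of the case `p > 1`. -/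
lemma arith (α β φ1 φ2 C η w w0 m0 m1 y01 : ℝ) (hα : 0 < α) (hβ : 0 < β)
    (hαβ : α ^ 2 + β ^ 2 = 1) (hφ1 : 0 ≤ φ1) (hφ2 : 0 ≤ φ2)
    (hγ : 0 < φ1 * α ^ 2 - φ2 * β ^ 2) (hC : 0 < C) (hη : 0 < η) (hw0 : 0 < w0) (hw : w0 ≤ w)
    (hη1 : η ≤ w0)
    (hη2 : 4 * ((φ1 + φ2) * (2 + 4 * C)) ^ 2 * η ≤ (φ1 * α ^ 2 - φ2 * β ^ 2) ^ 2 * w0)
    (hm0 : |m0| ≤ (1 + C) * η) (hy : |y01| ≤ C)
    (hm1 : (m1 - η * y01) ^ 2 ≤ η * (1 + 2 * C) * (w + η * C)) :
    (φ1 * α ^ 2 - φ2 * β ^ 2) / 2 * w0 ≤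
      φ1 * (β ^ 2 * m0 + 2 * (α * β) * m1 + α ^ 2 * w) -
        φ2 * (α ^ 2 * m0 - 2 * (α * β) * m1 + β ^ 2 * w) := by
  set γ := φ1 * α ^ 2 - φ2 * β ^ 2 with hγd
  have hwp : 0 < w := lt_of_lt_of_le hw0 hw
  have hηw : η ≤ w := hη1.trans hw
  set R := Real.sqrt (η * w) with hR
  have hR0 : 0 ≤ R := Real.sqrt_nonneg _
  have hR2 : R ^ 2 = η * w := Real.sq_sqrt (by positivity)
  have hηR : η ≤ R := by
    refine Real.le_sqrt_of_sq_le ?_
    rw [sq]
    exact mul_le_mul_of_nonneg_left hηw hη.le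
  have h1 : |m0| ≤ (1 + C) * R := hm0.trans (by gcongr)
  have h2 : |m1 - η * y01| ≤ (1 + 2 * C) * R := by
    refine abs_le_of_sq_le_sq ?_ (by positivity)
    rw [mul_pow, hR2]
    refine hm1.trans ?_
    have : w + η * C ≤ (1 + 2 * C) * w := by
      have b1 : η * C ≤ w * C := mul_le_mul_of_nonneg_right hηw hC.le
      have b2 : 0 ≤ w * C := by positivity
      linarith
    calc η * (1 + 2 * C) * (w + η * C) ≤ η * (1 + 2 * C) * ((1 + 2 * C) * w) := by gcongr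
      _ = (1 + 2 * C) ^ 2 * (η * w) := by ring
  have h3 : |η * y01| ≤ C * R := by
    rw [abs_mul, abs_of_pos hη, mul_comm C R]
    exact mul_le_mul hηR hy (abs_nonneg _) hR0
  have h4 : |m1| ≤ (1 + 3 * C) * R := by
    have : m1 = (m1 - η * y01) + η * y01 := by ring
    rw [this]
    refine (abs_add_le _ _).trans ?_
    linarith
  have hαβ1 : 2 * (α * β) ≤ 1 := by nlinarith [sq_nonneg (α - β)]
  have hαβ0 : 0 ≤ 2 * (α * β) := by positivity
  have hα1 : α ^ 2 ≤ 1 := by nlinarith [sq_nonneg β]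
  have hβ1 : β ^ 2 ≤ 1 := by nlinarith [sq_nonneg α]
  have e1 : φ1 * (β ^ 2 * m0 + 2 * (α * β) * m1 + α ^ 2 * w) -
        φ2 * (α ^ 2 * m0 - 2 * (α * β) * m1 + β ^ 2 * w) =
      γ * w + (φ1 * β ^ 2 - φ2 * α ^ 2) * m0 + (2 * (α * β) * (φ1 + φ2)) * m1 := by
    rw [hγd]; ring
  rw [e1]
  have h5 : |(φ1 * β ^ 2 - φ2 * α ^ 2) * m0| ≤ (φ1 + φ2) * ((1 + C) * R) := by
    rw [abs_mul]
    refine mul_le_mul ?_ h1 (abs_nonneg _) (by positivity)
    rw [abs_le]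
    have ha : φ1 * β ^ 2 ≤ φ1 := mul_le_of_le_one_right hφ1 hβ1
    have hb : 0 ≤ φ1 * β ^ 2 := by positivity
    have hc : φ2 * α ^ 2 ≤ φ2 := mul_le_of_le_one_right hφ2 hα1
    have hd : 0 ≤ φ2 * α ^ 2 := by positivity
    constructor <;> linarith
  have h6 : |(2 * (α * β) * (φ1 + φ2)) * m1| ≤ (φ1 + φ2) * ((1 + 3 * C) * R) := by
    rw [abs_mul]
    refine mul_le_mul ?_ h4 (abs_nonneg _) (by positivity)
    rw [abs_of_nonneg (by positivity)]
    exact mul_le_of_le_one_left (add_nonneg hφ1 hφ2) hαβ1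
  have h7 : (φ1 + φ2) * (2 + 4 * C) * R ≤ γ / 2 * w := by
    have : ((φ1 + φ2) * (2 + 4 * C) * R) ^ 2 ≤ (γ / 2 * w) ^ 2 := by
      rw [mul_pow _ R, hR2]
      have a0 : γ ^ 2 * w0 ≤ γ ^ 2 * w := mul_le_mul_of_nonneg_left hw (sq_nonneg γ)
      have a1 : ((φ1 + φ2) * (2 + 4 * C)) ^ 2 * η ≤ γ ^ 2 / 4 * w := by
        have e3 : 4 * ((φ1 + φ2) * (2 + 4 * C)) ^ 2 * η =
          4 * (((φ1 + φ2) * (2 + 4 * C)) ^ 2 * η) := by ring
        rw [e3] at hη2
        linarith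
      calc ((φ1 + φ2) * (2 + 4 * C)) ^ 2 * (η * w) =
            (((φ1 + φ2) * (2 + 4 * C)) ^ 2 * η) * w := by ring
        _ ≤ (γ ^ 2 / 4 * w) * w := by gcongr
        _ = (γ / 2 * w) ^ 2 := by ring
    exact (le_abs_self _).trans (abs_le_of_sq_le_sq this (by positivity))
  have h8 := (abs_le.mp h5).1
  have h9 := (abs_le.mp h6).1
  have h10 : (φ1 + φ2) * ((1 + C) * R) + (φ1 + φ2) * ((1 + 3 * C) * R) =
      (φ1 + φ2) * (2 + 4 * C) * R := by ring
  have h11 : γ / 2 * w0 ≤ γ / 2 * w := mul_le_mul_of_nonneg_left hw (by positivity)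
  have h12 : γ * w = γ / 2 * w + γ / 2 * w := by ring
  linarith

lemma matPow_diag (d : Fin n → ℝ) (p : ℝ) :
    matPow (diagonal (fun i => ((d i : ℝ) : ℂ))) p =
      diagonal (fun i => ((d i ^ p : ℝ) : ℂ)) := by
  have h := cfc_conj (U := (1 : Matrix (Fin n) (Fin n) ℂ))
    (A := diagonal (fun i => ((d i : ℝ) : ℂ))) (d := d) (by simp) (by simp) (fun x => x ^ p)
  unfold matPow
  rw [h]
  simp

/-- Scalar inequalities used for `M = S^r`. -/
lemma scal1 {r s : ℝ} (hr0 : 0 < r) (hr1 : r < 1) (hs : 0 < s) : s ^ r ≤ 1 + r * (s - 1) := by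
  have := rpow_one_add_le_one_add_mul_self (s := s - 1) (by linarith) hr0.le hr1.le
  simpa using this

lemma scal2 {r s K : ℝ} (hr0 : 0 < r) (hr1 : r < 1) (hs : 0 < s) (hs1 : s ≤ 1 + K)
    (hK : 0 ≤ K) : s - K ≤ s ^ r := by
  rcases le_total s 1 with h | h
  · have : s ^ (1 : ℝ) ≤ s ^ r := Real.rpow_le_rpow_of_exponent_ge hs h hr1.le
    rw [Real.rpow_one] at this
    linarith
  · have : 1 ≤ s ^ r := Real.one_le_rpow h hr0.le
    linarith

end Pool.Agent.H239.RangeBase
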