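import Pool.Agent.H239.RangeAboveOne

/-!
# MP_9bce2c_an: exponents in `(0, 1/4]` fail for `q ≥ 7`
-/

namespace Pool.Agent.H239.RangeQuarter

open Matrix Finset
open scoped ENNReal ComplexOrder
open Pool.Agent.Results.MP_9bce2c_an.SquareRootMean Pool.Agent.H239.RangeBase
  Pool.Agent.H239.RangeAboveOne

/-- A rotation matrix. -/
noncomputable def rot (α β : ℝ) : Matrix (Fin 2) (Fin 2) ℂ :=
  !![(α : ℂ), -(β : ℂ); (β : ℂ), (α : ℂ)]

/-- A real symmetric matrix. -/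
noncomputable def sym (x y z : ℝ) : Matrix (Fin 2) (Fin 2) ℂ :=
  !![(x : ℂ), (y : ℂ); (y : ℂ), (z : ℂ)]

lemma rot_unitary {α β : ℝ} (h : α ^ 2 + β ^ 2 = 1) : (rot α β)ᴴ * rot α β = 1 := by
  have h' : (α : ℂ) ^ 2 + (β : ℂ) ^ 2 = 1 := by exact_mod_cast h
  ext i j
  fin_cases i <;> fin_cases j <;>
    simp [rot, Matrix.mul_apply, Fin.sum_univ_two] <;>
    first
      | linear_combination h'
      | ring

lemma rot_conj (α β : ℝ) (d : Fin 2 → ℝ) :
    rot α β * diagonal (fun i => ((d i : ℝ) : ℂ)) * (rot α β)ᴴ =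
      sym (α ^ 2 * d 0 + β ^ 2 * d 1) (α * β * (d 0 - d 1)) (β ^ 2 * d 0 + α ^ 2 * d 1) := by
  ext i j
  rw [Matrix.mul_apply, Fin.sum_univ_two, Matrix.mul_diagonal, Matrix.mul_diagonal]
  fin_cases i <;> fin_cases j <;> simp [rot, sym] <;> ring

lemma sym_comb (r t x y z x' y' z' : ℝ) :
    r • sym x y z + t • sym x' y' z' =
      sym (r * x + t * x') (r * y + t * y') (r * z + t * z') := by
  ext i j
  fin_cases i <;> fin_cases j <;> simp [sym]

lemma sym_add (x y z x' y' z' : ℝ) :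
    sym x y z + sym x' y' z' = sym (x + x') (y + y') (z + z') := by
  ext i j
  fin_cases i <;> fin_cases j <;> simp [sym]

lemma sym_sub (x y z x' y' z' : ℝ) :
    sym x y z - sym x' y' z' = sym (x - x') (y - y') (z - z') := by
  ext i j
  fin_cases i <;> fin_cases j <;> simp [sym]

lemma sym_sq (x y z : ℝ) :
    sym x y z * sym x y z = sym (x ^ 2 + y ^ 2) (y * (x + z)) (y ^ 2 + z ^ 2) := by
  ext i j
  fin_cases i <;> fin_cases j <;> simp [sym, Matrix.mul_apply, Fin.sum_univ_two] <;> ring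

lemma sym_one (c : ℝ) : c • (1 : Matrix (Fin 2) (Fin 2) ℂ) = sym c 0 c := by
  ext i j
  fin_cases i <;> fin_cases j <;> simp [sym]

lemma sym_diag (d : Fin 2 → ℝ) : diagonal (fun i => ((d i : ℝ) : ℂ)) = sym (d 0) 0 (d 1) := by
  ext i j
  fin_cases i <;> fin_cases j <;> simp [sym]

lemma sym_psd {x y z : ℝ} (hx : 0 < x) (h : y ^ 2 ≤ x * z) : (sym x y z).PosSemidef := by
  have e : sym x y z = (1 / x : ℝ) • Matrix.vecMulVec (![(x : ℂ), (y : ℂ)] : Fin 2 → ℂ)
      (star ![(x : ℂ), (y : ℂ)]) +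
      diagonal (fun i => (((![0, z - y ^ 2 / x] : Fin 2 → ℝ) i : ℝ) : ℂ)) := by
    have hx0 : (x : ℂ) ≠ 0 := by exact_mod_cast hx.ne'
    ext i j
    rw [Matrix.add_apply, Matrix.smul_apply, Matrix.diagonal_apply, Matrix.vecMulVec_apply]
    fin_cases i <;> fin_cases j <;> simp [sym] <;> field_simp <;> ring
  rw [e]
  refine ((Matrix.posSemidef_vecMulVec_self_star _).smul (by positivity)).add ?_
  rw [posSemidef_diagonal_iff]
  intro i
  have h0 : 0 ≤ z - y ^ 2 / x := by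
    rw [sub_nonneg, div_le_iff₀ hx]
    linarith
  fin_cases i
  · simp
  · simpa using (by exact_mod_cast h0 : (0 : ℂ) ≤ ((z - y ^ 2 / x : ℝ) : ℂ))

lemma sq_conj {W S : Matrix (Fin 2) (Fin 2) ℂ} {s : Fin 2 → ℝ} (hW : Wᴴ * W = 1)
    (hS : S = W * diagonal (fun i => (s i : ℂ)) * Wᴴ) :
    S * S = W * diagonal (fun i => ((s i * s i : ℝ) : ℂ)) * Wᴴ := by
  conv_lhs => rw [hS]
  calc W * diagonal (fun i => (s i : ℂ)) * Wᴴ * (W * diagonal (fun i => (s i : ℂ)) * Wᴴ)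
      = W * (diagonal (fun i => (s i : ℂ)) * (Wᴴ * W) * diagonal (fun i => (s i : ℂ))) * Wᴴ := by
        simp only [Matrix.mul_assoc]
    _ = W * (diagonal (fun i => (s i : ℂ)) * diagonal (fun i => (s i : ℂ))) * Wᴴ := by
        rw [hW, Matrix.mul_one]
    _ = _ := by
        rw [diagonal_mul_diagonal]
        congr 3
        funext i
        push_cast
        rfl

lemma abs_le_lq {n : ℕ} (q : ℝ≥0∞) [Fact (1 ≤ q)] (a : Fin n → ℝ) (i : Fin n) :
    |a i| ≤ lq q a := by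
  have := PiLp.norm_apply_le (WithLp.toLp q a : PiLp q (fun _ : Fin n => ℝ)) i
  simpa [lq, Real.norm_eq_abs] using this

lemma lq_seven (q : ℝ≥0∞) (hq : 7 ≤ q) :
    lq q ![(47 / 145 : ℝ), -(141 / 145)] ≤ 141 / 145 * (1 + 1 / 15309) := by
  by_cases ht : q = ∞
  · subst ht
    rw [lq_top]
    refine ciSup_le fun i => ?_
    have e0 : |(47 / 145 : ℝ)| ≤ 141 / 145 * (1 + 1 / 15309) := by
      rw [abs_of_pos (by norm_num)]
      norm_num
    have e1 : |-(141 / 145 : ℝ)| ≤ 141 / 145 * (1 + 1 / 15309) := by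
      rw [abs_neg, abs_of_pos (by norm_num)]
      norm_num
    fin_cases i
    · exact e0
    · exact e1
  · have h7 : 7 ≤ q.toReal := by
      have := (ENNReal.toReal_le_toReal (by norm_num) ht).2 hq
      simpa using this
    have h0 : 0 < q.toReal := by linarith
    rw [lq_fin h0, Fin.sum_univ_two]
    simp only [Matrix.cons_val_zero, Matrix.cons_val_one]
    rw [abs_neg, abs_of_pos (by norm_num), abs_of_pos (by norm_num)]
    have e1 : (47 / 145 : ℝ) ^ q.toReal + (141 / 145) ^ q.toReal =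
        (141 / 145) ^ q.toReal * (1 + (1 / 3) ^ q.toReal) := by
      have : (47 / 145 : ℝ) = 141 / 145 * (1 / 3) := by norm_num
      rw [this, Real.mul_rpow (by norm_num) (by norm_num)]
      ring
    have h3 : (0 : ℝ) ≤ (1 / 3) ^ q.toReal := Real.rpow_nonneg (by norm_num) _
    rw [e1, Real.mul_rpow (Real.rpow_nonneg (by norm_num) _) (by linarith),
      ← Real.rpow_mul (by norm_num), mul_one_div_cancel h0.ne', Real.rpow_one]
    refine mul_le_mul_of_nonneg_left ?_ (by norm_num)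
    have hi0 : 0 ≤ 1 / q.toReal := by positivity
    have hi1 : 1 / q.toReal ≤ 1 / 7 := one_div_le_one_div_of_le (by norm_num) h7
    have h4 := rpow_one_add_le_one_add_mul_self (s := (1 / 3 : ℝ) ^ q.toReal)
      (by linarith) hi0 (by linarith)
    refine h4.trans ?_
    have h5 : (1 / 3 : ℝ) ^ q.toReal ≤ (1 / 3) ^ (7 : ℝ) :=
      Real.rpow_le_rpow_of_exponent_ge (by norm_num) (by norm_num) h7
    have h6 : (1 / 3 : ℝ) ^ (7 : ℝ) = 1 / 2187 := by
      have : (7 : ℝ) = ((7 : ℕ) : ℝ) := by norm_num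
      rw [this, Real.rpow_natCast]
      norm_num
    rw [h6] at h5
    have h8 : 1 / q.toReal * (1 / 3 : ℝ) ^ q.toReal ≤ 1 / 7 * (1 / 2187) :=
      mul_le_mul hi1 h5 h3 (by norm_num)
    have h9 : (1 / 7 * (1 / 2187) : ℝ) = 1 / 15309 := by norm_num
    linarith

/-- For `q ≥ 7` no exponent in `(0, 1/4]` works. -/
lemma smallSeven (q : ℝ≥0∞) (hq : 7 ≤ q) (p : ℝ) (hp : 0 < p) (hp1 : p ≤ 1 / 4) :
    ¬ Monotonic p q := by
  have hq1 : Fact (1 ≤ q) := ⟨le_trans (by norm_num) hq⟩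
  intro hmon
  set r : ℝ := 1 / p with hr
  have hr4 : 4 ≤ r := by
    rw [hr, le_div_iff₀ hp]
    linarith
  set δ : ℝ := 1 / 10000 with hδ
  set ε : ℝ := δ ^ r with hε
  have hε0 : 0 < ε := Real.rpow_pos_of_pos (by norm_num) _
  have hε1 : ε < 1 := Real.rpow_lt_one (by norm_num) (by norm_num) (by linarith)
  have hεp : ε ^ p = δ := by
    rw [hε, ← Real.rpow_mul (by norm_num), hr, one_div_mul_cancel hp.ne', Real.rpow_one]
  set S0 : ℝ := ε + 51 / 145 * (1 - ε) with hS0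
  have hS0a : 51 / 145 ≤ S0 := by
    have : S0 = 51 / 145 + ε * (94 / 145) := by rw [hS0]; ring
    rw [this]
    linarith [mul_nonneg hε0.le (by norm_num : (0 : ℝ) ≤ 94 / 145)]
  have hS0p : 0 < S0 := by linarith
  set a : ℝ := S0 ^ p with ha
  have ha0 : 0 < a := Real.rpow_pos_of_pos hS0p _
  have har : a ^ r = S0 := by
    rw [ha, ← Real.rpow_mul hS0p.le, hr, mul_one_div_cancel hp.ne', Real.rpow_one]
  have haL : 10 / 13 ≤ a := by
    have h1 : ((10 / 13 : ℝ) ^ r) ^ p = 10 / 13 := by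
      rw [← Real.rpow_mul (by norm_num), hr, one_div_mul_cancel hp.ne', Real.rpow_one]
    rw [← h1, ha]
    refine Real.rpow_le_rpow (Real.rpow_nonneg (by norm_num) _) ?_ hp.le
    have h2 : (10 / 13 : ℝ) ^ r ≤ (10 / 13) ^ (4 : ℝ) :=
      Real.rpow_le_rpow_of_exponent_ge (by norm_num) (by norm_num) hr4
    have h3 : (10 / 13 : ℝ) ^ (4 : ℝ) = 10000 / 28561 := by
      have : (4 : ℝ) = ((4 : ℕ) : ℝ) := by norm_num
      rw [this, Real.rpow_natCast]
      norm_num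
    rw [h3] at h2
    have h4 : (10000 / 28561 : ℝ) ≤ 51 / 145 := by norm_num
    linarith
  -- the two bases
  set α1 : ℝ := 4 / Real.sqrt 17 with hα1
  set β1 : ℝ := 1 / Real.sqrt 17 with hβ1
  set α2 : ℝ := 1 / Real.sqrt 145 with hα2
  set β2 : ℝ := 12 / Real.sqrt 145 with hβ2
  have q1 : Real.sqrt 17 * Real.sqrt 17 = 17 := Real.mul_self_sqrt (by norm_num)
  have q2 : Real.sqrt 145 * Real.sqrt 145 = 145 := Real.mul_self_sqrt (by norm_num)
  have hα1s : α1 ^ 2 = 16 / 17 := by rw [hα1, div_pow, sq (Real.sqrt 17), q1]; norm_num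
  have hβ1s : β1 ^ 2 = 1 / 17 := by rw [hβ1, div_pow, sq (Real.sqrt 17), q1]; norm_num
  have hαβ1 : α1 * β1 = 4 / 17 := by rw [hα1, hβ1, div_mul_div_comm, q1]; norm_num
  have hα2s : α2 ^ 2 = 1 / 145 := by rw [hα2, div_pow, sq (Real.sqrt 145), q2]; norm_num
  have hβ2s : β2 ^ 2 = 144 / 145 := by rw [hβ2, div_pow, sq (Real.sqrt 145), q2]; norm_num
  have hαβ2 : α2 * β2 = 12 / 145 := by rw [hα2, hβ2, div_mul_div_comm, q2]; norm_num
  have hV : (rot α1 β1)ᴴ * rot α1 β1 = 1 := rot_unitary (by rw [hα1s, hβ1s]; norm_num)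
  have hU : (rot α2 β2)ᴴ * rot α2 β2 = 1 := rot_unitary (by rw [hα2s, hβ2s]; norm_num)
  set dX : Fin 2 → ℝ := ![S0, ε] with hdX
  set dY : Fin 2 → ℝ := ![1, ε] with hdY
  have hdX0 : ∀ i, 0 < dX i := by
    intro i
    fin_cases i
    · simpa [hdX] using hS0p
    · simpa [hdX] using hε0
  have hdY0 : ∀ i, 0 < dY i := by
    intro i
    fin_cases i
    · simp [hdY]
    · simpa [hdY] using hε0
  set X : Matrix (Fin 2) (Fin 2) ℂ :=
    rot α1 β1 * diagonal (fun i => ((dX i : ℝ) : ℂ)) * (rot α1 β1)ᴴ with hX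
  set Y : Matrix (Fin 2) (Fin 2) ℂ :=
    rot α2 β2 * diagonal (fun i => ((dY i : ℝ) : ℂ)) * (rot α2 β2)ᴴ with hY
  have hXe : X = sym (16 / 17 * S0 + 1 / 17 * ε) (4 / 17 * (S0 - ε))
      (1 / 17 * S0 + 16 / 17 * ε) := by
    rw [hX, rot_conj, hα1s, hβ1s, hαβ1]
    simp [hdX]
  have hYe : Y = sym (1 / 145 + 144 / 145 * ε) (12 / 145 * (1 - ε))
      (144 / 145 + 1 / 145 * ε) := by
    rw [hY, rot_conj, hα2s, hβ2s, hαβ2]
    simp [hdY]
  have hSε : 0 < S0 - ε := by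
    have : S0 - ε = 51 / 145 * (1 - ε) := by rw [hS0]; ring
    rw [this]
    exact mul_pos (by norm_num) (by linarith)
  have hXpos : X.PosDef := by
    have e : X = sym (16 / 17 * (S0 - ε)) (4 / 17 * (S0 - ε)) (1 / 17 * (S0 - ε)) +
        ε • (1 : Matrix (Fin 2) (Fin 2) ℂ) := by
      rw [hXe, sym_one, sym_add]
      congr 1 <;> ring
    rw [e]
    exact Matrix.PosDef.posSemidef_add (sym_psd (by positivity) (le_of_eq (by ring)))
      (PosDef.one.smul hε0)
  have hYpos : Y.PosDef := by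
    have h1ε : 0 < 1 - ε := by linarith
    have e : Y = sym (1 / 145 * (1 - ε)) (12 / 145 * (1 - ε)) (144 / 145 * (1 - ε)) +
        ε • (1 : Matrix (Fin 2) (Fin 2) ℂ) := by
      rw [hYe, sym_one, sym_add]
      congr 1 <;> ring
    rw [e]
    exact Matrix.PosDef.posSemidef_add (sym_psd (by positivity) (le_of_eq (by ring)))
      (PosDef.one.smul hε0)
  have hXc : matPow X p =
      rot α1 β1 * diagonal (fun i => ((dX i ^ p : ℝ) : ℂ)) * (rot α1 β1)ᴴ := cfc_conj hV hX _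
  have hYc : matPow Y p =
      rot α2 β2 * diagonal (fun i => ((dY i ^ p : ℝ) : ℂ)) * (rot α2 β2)ᴴ := cfc_conj hU hY _
  have hXp : matPow X p = sym (16 / 17 * a + 1 / 17 * δ) (4 / 17 * (a - δ))
      (1 / 17 * a + 16 / 17 * δ) := by
    rw [hXc, rot_conj α1 β1 (fun i => dX i ^ p), hα1s, hβ1s, hαβ1]
    simp only [hdX, Matrix.cons_val_zero, Matrix.cons_val_one, hεp, ← ha]
  have hYp : matPow Y p = sym (1 / 145 * 1 + 144 / 145 * δ) (12 / 145 * (1 - δ))
      (144 / 145 * 1 + 1 / 145 * δ) := by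
    rw [hYc, rot_conj α2 β2 (fun i => dY i ^ p), hα2s, hβ2s, hαβ2]
    simp only [hdY, Matrix.cons_val_zero, Matrix.cons_val_one, hεp, Real.one_rpow]
  have hM1 : powerMean p 1 X Y = X := by
    unfold powerMean
    rw [one_smul, sub_self, zero_smul, add_zero]
    have h5 : matPow (matPow X p) (1 / p) =
        rot α1 β1 * diagonal (fun i => (((dX i ^ p) ^ (1 / p) : ℝ) : ℂ)) * (rot α1 β1)ᴴ :=
      cfc_conj hV hXc _
    rw [h5, hX]
    congr 3
    funext i
    rw [← Real.rpow_mul (hdX0 i).le, mul_one_div_cancel hp.ne', Real.rpow_one]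
  set S : Matrix (Fin 2) (Fin 2) ℂ :=
    (24 / 25 : ℝ) • matPow X p + (1 - 24 / 25 : ℝ) • matPow Y p with hS
  set M := matPow S r with hM
  have hMh : powerMean p (24 / 25) X Y = M := rfl
  have hpsd : ∀ {α β : ℝ} {d : Fin 2 → ℝ}, (∀ i, 0 < d i) →
      (rot α β * diagonal (fun i => ((d i ^ p : ℝ) : ℂ)) * (rot α β)ᴴ).PosSemidef := by
    intro α β d hd
    refine PosSemidef.mul_mul_conjTranspose_same ?_ _
    rw [posSemidef_diagonal_iff]
    intro i
    exact_mod_cast Real.rpow_nonneg (hd i).le p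
  have hSps : S.PosSemidef := by
    rw [hS, hXc, hYc]
    exact ((hpsd hdX0).smul (by norm_num)).add ((hpsd hdY0).smul (by norm_num))
  have hSH : S.IsHermitian := hSps.1
  have hSe : S = sym (24 / 25 * (16 / 17 * a + 1 / 17 * δ) +
        (1 - 24 / 25) * (1 / 145 * 1 + 144 / 145 * δ))
      (24 / 25 * (4 / 17 * (a - δ)) + (1 - 24 / 25) * (12 / 145 * (1 - δ)))
      (24 / 25 * (1 / 17 * a + 16 / 17 * δ) +
        (1 - 24 / 25) * (144 / 145 * 1 + 1 / 145 * δ)) := by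
    rw [hS, hXp, hYp, sym_comb]
  set s0 := 24 / 25 * (16 / 17 * a + 1 / 17 * δ) +
        (1 - 24 / 25) * (1 / 145 * 1 + 144 / 145 * δ) with hs0
  set s1 := 24 / 25 * (4 / 17 * (a - δ)) + (1 - 24 / 25) * (12 / 145 * (1 - δ)) with hs1
  set s2 := 24 / 25 * (1 / 17 * a + 16 / 17 * δ) +
        (1 - 24 / 25) * (144 / 145 * 1 + 1 / 145 * δ) with hs2
  have b0 : 0 ≤ s0 := by rw [hs0, hδ]; linarith
  have b1 : 0 ≤ s1 := by rw [hs1, hδ]; linarith
  have b2 : 0 ≤ s2 := by rw [hs2, hδ]; linarith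
  have c0 : s0 ≤ 904 / 1000 * a := by rw [hs0, hδ]; linarith
  have c1 : s1 ≤ 2302 / 10000 * a := by rw [hs1, hδ]; linarith
  have c2 : s2 ≤ 1083 / 10000 * a := by rw [hs2, hδ]; linarith
  clear_value s0 s1 s2
  have hSC : ((-1 : ℝ) • S + a • (1 : Matrix (Fin 2) (Fin 2) ℂ)).PosSemidef := by
    have e : (-1 : ℝ) • S + a • (1 : Matrix (Fin 2) (Fin 2) ℂ) =
        sym (a - s0) (-s1) (a - s2) := by
      have : a • (1 : Matrix (Fin 2) (Fin 2) ℂ) = (1 : ℝ) • sym a 0 a := by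
        rw [one_smul, sym_one]
      rw [this, hSe, sym_comb]
      congr 1 <;> ring
    rw [e]
    have d0 : 96 / 1000 * a ≤ a - s0 := by linarith
    have d2 : 8917 / 10000 * a ≤ a - s2 := by linarith
    refine sym_psd (lt_of_lt_of_le (by positivity) d0) ?_
    have e1 : (-s1) ^ 2 ≤ (2302 / 10000 * a) ^ 2 := by
      rw [neg_sq]
      exact pow_le_pow_left₀ b1 c1 2
    have e2 : 96 / 1000 * a * (8917 / 10000 * a) ≤ (a - s0) * (a - s2) :=
      mul_le_mul d0 d2 (by positivity) (le_trans (by positivity) d0)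
    have e3 : (2302 / 10000 * a) ^ 2 ≤ 96 / 1000 * a * (8917 / 10000 * a) := by
      have : 0 ≤ a ^ 2 := sq_nonneg a
      nlinarith
    linarith
  obtain ⟨W, hW, hSW⟩ := spec hSH
  set s := hSH.eigenvalues with hs
  have hsn : ∀ i, 0 ≤ s i := fun i => hSps.eigenvalues_nonneg i
  have hsa : ∀ i, s i ≤ a := fun i => by
    have := le_eig hW hSW (-1) a hSC i
    linarith
  have hMW : M = W * diagonal (fun i => ((s i ^ r : ℝ) : ℂ)) * Wᴴ := cfc_conj hW hSW _
  have hMH : M.IsHermitian := matPow_isHermitian _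
  have hS2 := sq_conj hW hSW
  have hS4 := sq_conj hW hS2
  have g := fc_psd hW hS4 hMW (-1) (S0 / a ^ 4) 0 (fun i => by
    have h1 : s i ^ r ≤ S0 / a ^ 4 * (s i * s i * (s i * s i)) := by
      have h2 : s i / a ≤ 1 := (div_le_one ha0).2 (hsa i)
      have h3 : 0 ≤ s i / a := div_nonneg (hsn i) ha0.le
      have h4 : (s i / a) ^ r ≤ (s i / a) ^ (4 : ℝ) :=
        Real.rpow_le_rpow_of_exponent_ge' h3 h2 (by norm_num) hr4
      have h5 : (s i / a) ^ (4 : ℝ) = (s i / a) ^ (4 : ℕ) := by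
        have : (4 : ℝ) = ((4 : ℕ) : ℝ) := by norm_num
        rw [this, Real.rpow_natCast]
      have h6 : s i ^ r = a ^ r * (s i / a) ^ r := by
        rw [← Real.mul_rpow ha0.le h3]
        congr 1
        field_simp
      rw [h6, har]
      calc S0 * (s i / a) ^ r ≤ S0 * (s i / a) ^ (4 : ℕ) := by
            rw [← h5]
            exact mul_le_mul_of_nonneg_left h4 hS0p.le
        _ = S0 / a ^ 4 * (s i * s i * (s i * s i)) := by
            rw [div_pow]
            ring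
    linarith)
  have g1 := (psd_entries g).2.1
  rw [ent_d] at g1
  have hS4e : (S * S * (S * S) : Matrix (Fin 2) (Fin 2) ℂ) 1 1 =
      (((s1 * (s0 + s2)) ^ 2 + (s1 ^ 2 + s2 ^ 2) ^ 2 : ℝ) : ℂ) := by
    rw [hSe, sym_sq, sym_sq]
    simp [sym]
  rw [hS4e, Complex.ofReal_re] at g1
  have hF : (s1 * (s0 + s2)) ^ 2 + (s1 ^ 2 + s2 ^ 2) ^ 2 ≤
      585 / 10000 * a ^ 4 := by
    have f1 : s1 * (s0 + s2) ≤ 2302 / 10000 * a * (904 / 1000 * a + 1083 / 10000 * a) :=
      mul_le_mul c1 (by linarith) (by linarith) (by positivity)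
    have f2 : (s1 * (s0 + s2)) ^ 2 ≤
        (2302 / 10000 * a * (904 / 1000 * a + 1083 / 10000 * a)) ^ 2 :=
      pow_le_pow_left₀ (mul_nonneg b1 (by linarith)) f1 2
    have f3 : s1 ^ 2 ≤ (2302 / 10000 * a) ^ 2 := pow_le_pow_left₀ b1 c1 2
    have f4 : s2 ^ 2 ≤ (1083 / 10000 * a) ^ 2 := pow_le_pow_left₀ b2 c2 2
    have f5 : (s1 ^ 2 + s2 ^ 2) ^ 2 ≤
        ((2302 / 10000 * a) ^ 2 + (1083 / 10000 * a) ^ 2) ^ 2 :=
      pow_le_pow_left₀ (by positivity) (by linarith) 2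
    have f6 : (2302 / 10000 * a * (904 / 1000 * a + 1083 / 10000 * a)) ^ 2 +
        ((2302 / 10000 * a) ^ 2 + (1083 / 10000 * a) ^ 2) ^ 2 ≤ 585 / 10000 * a ^ 4 := by
      have : 0 ≤ a ^ 4 := by positivity
      nlinarith
    linarith
  have hM11 : (M 1 1).re ≤ S0 * (585 / 10000) := by
    have h1 : S0 / a ^ 4 * ((s1 * (s0 + s2)) ^ 2 + (s1 ^ 2 + s2 ^ 2) ^ 2) ≤
        S0 / a ^ 4 * (585 / 10000 * a ^ 4) :=
      mul_le_mul_of_nonneg_left hF (by positivity)
    have h2 : S0 / a ^ 4 * (585 / 10000 * a ^ 4) = S0 * (585 / 10000) := by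
      field_simp
    linarith
  have hlow : 144 / 145 + 1 / 145 * ε - S0 * (585 / 10000) ≤ schatten q (M - Y) := by
    refine le_trans ?_ (schatten_ge q (V := 1) (by simp) (hMH.sub hYpos.1))
    refine le_trans ?_ (abs_le_lq q _ 1)
    have h1 : dg 1 (M - Y) 1 = (M 1 1).re - (144 / 145 + 1 / 145 * ε) := by
      have h2 : (Y 1 1).re = 144 / 145 + 1 / 145 * ε := by
        rw [hYe]
        simp [sym]
      rw [← h2]
      simp [dg]
    rw [h1, ← abs_neg]
    refine le_trans ?_ (le_abs_self _)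
    linarith
  have hupp : schatten q (X - Y) ≤ (1 - ε) * (141 / 145 * (1 + 1 / 15309)) := by
    have e : X - Y = 1 * diagonal (fun i =>
        ((((1 - ε) • ![(47 / 145 : ℝ), -(141 / 145)]) i : ℝ) : ℂ)) * (1 : Matrix _ _ ℂ)ᴴ := by
      rw [conjTranspose_one, Matrix.one_mul, Matrix.mul_one, sym_diag, hXe, hYe, sym_sub, hS0]
      simp only [Pi.smul_apply, Matrix.cons_val_zero, Matrix.cons_val_one, smul_eq_mul]
      congr 1 <;> ring
    have h1 := schatten_le q (by simp) e (hXpos.1.sub hYpos.1)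
    rw [lq_smul, abs_of_pos (by linarith)] at h1
    refine h1.trans ?_
    exact mul_le_mul_of_nonneg_left (lq_seven q hq) (by linarith)
  have hcmp := hmon 2 X Y hXpos hYpos (a := 24 / 25) (b := 1) ⟨by norm_num, by norm_num⟩
    ⟨zero_le_one, le_refl 1⟩ (by norm_num)
  simp only [hM1, hMh] at hcmp
  have hS0' : S0 * (585 / 10000) = 585 / 10000 * ε + 585 / 10000 * (51 / 145) * (1 - ε) := by
    rw [hS0]; ring
  have hfinal : (1 - ε) * (141 / 145 * (1 + 1 / 15309)) <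
      144 / 145 + 1 / 145 * ε - S0 * (585 / 10000) := by
    rw [hS0']
    linarith
  linarith

end Pool.Agent.H239.RangeQuarter
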